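import Pool.Agent.LpBusemann.Unique

open scoped ENNReal
open Set

namespace Pool.Agent.Results.MP_e44843_al.BusemannUpgrade

open Pool.Agent.LpBusemann

universe u v w

/-- Let `1 < p < ∞` and let `X` be an l^p complex each of whose vertices lies in simplices of only
finitely many isometry types. Then the following are equivalent: `X` has a conical bicombing; `X`
has a convex bicombing; `X` is Busemann convex. -/
theorem result {p : ℝ≥0∞} [Fact (1 ≤ p)] (hp1 : 1 < p) (hpt : p ≠ ⊤) {V : Type u} {X : Type v}
    [MetricSpace X] (C : LpComplex p V X) (hC : C.LocallyFiniteShapes) :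
    List.TFAE [∃ σ : X → X → ℝ → X, IsConicalBicombing σ,
      ∃ σ : X → X → ℝ → X, IsConvexBicombing σ, BusemannConvex X] := by
  tfae_have 1 → 3 := by
    rintro ⟨σ, hσ⟩
    exact busemannConvex_of_bicombing C hp1 hpt hC.tame hσ
  tfae_have 3 → 2 := by
    rintro ⟨h1, -, h3⟩
    choose σ hσ using h1
    exact ⟨σ, hσ, fun x y x' y' => h3 x y x' y' _ _ (hσ x y) (hσ x' y')⟩
  tfae_have 2 → 1 := by
    rintro ⟨σ, hσ⟩
    exact ⟨σ, hσ.conical⟩
  tfae_finish

/-- The action of the group `G` on the metric space `X` is geometric: by isometries, properly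
discontinuous and cocompact. -/
def ActsGeometrically (G : Type w) [Group G] (X : Type v) [MetricSpace X] [MulAction G X] : Prop :=
  (∀ g : G, Isometry fun x : X => g • x) ∧
  (∀ x : X, ∃ r : ℝ, 0 < r ∧
    {g : G | ((fun y : X => g • y) '' Metric.ball x r ∩ Metric.ball x r).Nonempty}.Finite) ∧
  ∃ D : Set X, IsCompact D ∧ ∀ x : X, ∃ g : G, ∃ y ∈ D, g • y = x

/-- What `result` says about groups: for every group `G` and every `p` with `1 < p < ∞`, acting
geometrically on an l^p complex (as in `result`) with a convex bicombing is the same as acting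
geometrically on a Busemann convex one. So the two questions of the problem are equivalent. -/
theorem groups (p : ℝ≥0∞) [Fact (1 ≤ p)] (hp1 : 1 < p) (hpt : p ≠ ⊤) (G : Type w) [Group G] :
    (∃ (V : Type u) (X : Type v) (_ : MetricSpace X) (_ : MulAction G X) (C : LpComplex p V X),
      C.LocallyFiniteShapes ∧ ActsGeometrically G X ∧
        ∃ σ : X → X → ℝ → X, IsConvexBicombing σ) ↔
    (∃ (V : Type u) (X : Type v) (_ : MetricSpace X) (_ : MulAction G X) (C : LpComplex p V X),
      C.LocallyFiniteShapes ∧ ActsGeometrically G X ∧ BusemannConvex X) := by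
  constructor
  · rintro ⟨V, X, i1, i2, C, hC, hG, h⟩
    exact ⟨V, X, i1, i2, C, hC, hG, ((result hp1 hpt C hC).out 1 2).1 h⟩
  · rintro ⟨V, X, i1, i2, C, hC, hG, h⟩
    exact ⟨V, X, i1, i2, C, hC, hG, ((result hp1 hpt C hC).out 1 2).2 h⟩

end Pool.Agent.Results.MP_e44843_al.BusemannUpgrade
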