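import Pool.Agent.LpBusemann.Link
import Pool.Agent.LpBusemann.Invariance
import Pool.Agent.LpBusemann.Rational

open scoped ENNReal

namespace Pool.Agent.Results.MP_e44843_al.DimTwo

open Pool.Agent.LpBusemann

universe u v

/-- Let `1 < p < ∞` and let `X` be an l^p complex of dimension at most two, each of whose
vertices lies in simplices of only finitely many isometry types (the triangles may lie in l^p
spaces of any dimension). If `X` has a conical bicombing, for instance a convex one, then the
Loewner ellipses of the triangles fit together to a piecewise Euclidean metric on the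
underlying simplicial complex, given by edge lengths `L`, which is invariant under all simplicial
isometries of `X` and satisfies the link condition of Gromov: the total angle of every cycle of
triangles around a vertex is at least `2 π`. -/
theorem result {p : ℝ≥0∞} [Fact (1 ≤ p)] (hp1 : 1 < p) (hpt : p ≠ ⊤) {V : Type u} [DecidableEq V]
    {X : Type v} [MetricSpace X] (C : LpComplex p V X) (hC : C.LocallyFiniteShapes)
    (hdim : ∀ s ∈ C.K.faces, s.card ≤ 3)
    (hσ : ∃ σ : X → X → ℝ → X, IsConicalBicombing σ) :
    ∃ L : V → V → ℝ, C.IsLoewner L ∧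
      (∀ u w, u ≠ w → ({u, w} : Finset V) ∈ C.K.faces → 0 < L u w) ∧
      (∀ u v w, C.IsTri v u w → L u w < L u v + L v w) ∧
      (∀ (v : V) (m : ℕ) (a : ℕ → V), 3 ≤ m → a m = a 0 →
        (∀ i < m, ∀ j < m, a i = a j → i = j) → (∀ i < m, C.IsTri v (a i) (a (i + 1))) →
        2 * Real.pi ≤ ∑ i ∈ Finset.range m, angleOf L v (a i) (a (i + 1))) ∧
      ∀ f : V ≃ V, C.IsSimplicialIsometry f → ∀ u w, ({u, w} : Finset V) ∈ C.K.faces →
        L (f u) (f w) = L u w := by
  obtain ⟨σ, hσ⟩ := hσ
  have hT := hC.tame
  have hB := busemannConvex_of_bicombing C hp1 hpt hT hσ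
  refine ⟨C.len, LpComplex.isLoewner hB hT hdim,
    fun u w hne huw => LpComplex.len_pos hB hT hdim hne huw, fun u v w h => ?_,
    fun v m a hm hper hinj htri => LpComplex.link_condition hB hT hdim hm hper hinj htri,
    fun f hf u w huw => hf.len hB hT hdim huw⟩
  rw [LpComplex.len_symm hB hT hdim u v]
  exact LpComplex.IsTri.len_lt hB hT hdim h

end Pool.Agent.Results.MP_e44843_al.DimTwo
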