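import Pool.Agent.LpBusemann.Rational

open scoped ENNReal

namespace Pool.Agent.Results.MP_e44843_al.RationalAngles

open Pool.Agent.LpBusemann

universe u v

/-- Let `1 < p < ∞` and let `X` be an l^p complex of dimension at most two, each of whose
vertices lies in simplices of only finitely many isometry types, with a conical bicombing, for
instance a convex one. Then the Loewner ellipses of the triangles fit together to a piecewise
Euclidean metric with edge lengths `L`, and for its angles: the total angle of every cycle of
triangles around a vertex is a rational multiple of `π`, and so is the angle of a triangle between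
two edges each of which lies in at least three triangles; except that, if `p` is an even integer,
the triangles in question may instead be Euclidean (their l^p metric is then that of `L`). -/
theorem result {p : ℝ≥0∞} [Fact (1 ≤ p)] (hp1 : 1 < p) (hpt : p ≠ ⊤) {V : Type u} [DecidableEq V]
    {X : Type v} [MetricSpace X] (C : LpComplex p V X) (hC : C.LocallyFiniteShapes)
    (hdim : ∀ s ∈ C.K.faces, s.card ≤ 3)
    (hσ : ∃ σ : X → X → ℝ → X, IsConicalBicombing σ) :
    ∃ L : V → V → ℝ, C.IsLoewner L ∧
      (∀ (v : V) (m : ℕ) (a : ℕ → V), 3 ≤ m → a m = a 0 →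
        (∀ i < m, ∀ j < m, a i = a j → i = j) → (∀ i < m, C.IsTri v (a i) (a (i + 1))) →
        (∃ q : ℚ, ∑ i ∈ Finset.range m, angleOf L v (a i) (a (i + 1)) = q * Real.pi) ∨
          (∃ n : ℕ, p = 2 * n) ∧ ∀ i < m, C.IsEuclideanTri L v (a i) (a (i + 1))) ∧
      (∀ v a b, C.IsTri v a b → C.IsThickEdge v a → C.IsThickEdge v b →
        (∃ q : ℚ, angleOf L v a b = q * Real.pi) ∨
          (∃ n : ℕ, p = 2 * n) ∧ C.IsEuclideanTri L v a b) := by
  obtain ⟨σ, hσ⟩ := hσ
  have hT := hC.tame
  have hB := busemannConvex_of_bicombing C hp1 hpt hT hσ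
  refine ⟨C.len, LpComplex.isLoewner hB hT hdim, fun v m a hm hper hinj htri => ?_,
    fun v a b h ha hb => ?_⟩
  · rcases LpComplex.cycle_dichotomy hB hT hdim hm hper hinj htri with h | h
    · exact Or.inl h
    · exact Or.inr ⟨LpComplex.IsTri.even hB hT hpt hdim (htri 0 (by omega)) (h 0 (by omega)), h⟩
  · rcases LpComplex.IsTri.corner_dichotomy hB hT hdim h ha hb with h' | h'
    · exact Or.inl h'
    · exact Or.inr ⟨LpComplex.IsTri.even hB hT hpt hdim h h', h'⟩

end Pool.Agent.Results.MP_e44843_al.RationalAngles
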