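import Pool.Agent.LpBusemann.Thick

open scoped ENNReal

namespace Pool.Agent.Results.MP_e44843_al.ThickMirrors

open Pool.Agent.LpBusemann

universe u v

variable {p : ℝ≥0∞} [Fact (1 ≤ p)] {V : Type u} {X : Type v} [MetricSpace X]

/-- Thick walls are mirrors. Let `1 < p < ∞` and let `X` be an l^p complex each of whose vertices
lies in simplices of only finitely many isometry types, with a conical bicombing, for instance a
convex one. Let `F` be a wall of the simplex `T` and of at least two other simplices. Then the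
norm of `T` (in the l^p space, of any dimension, in which `T` is placed) has a reflection in `F`.
If `p ≠ 2` and `T` is full-dimensional in its l^p space `R^n`, then `F` lies in a hyperplane
`x_i = c`, `x_i - x_j = c` or `x_i + x_j = c`. -/
theorem result (hp1 : 1 < p) (hpt : p ≠ ⊤) (C : LpComplex p V X) (hC : C.LocallyFiniteShapes)
    (hσ : ∃ σ : X → X → ℝ → X, IsConicalBicombing σ) (F T : Finset V)
    (hF : C.IsThickWallOf F T) :
    C.HasReflection F T ∧ (p ≠ 2 → C.IsFull T → C.InMirror F T) := by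
  classical
  obtain ⟨σ, hσ⟩ := hσ
  have hT := hC.tame
  have hB := busemannConvex_of_bicombing C hp1 hpt hT hσ
  refine ⟨?_, fun hp2 hfull => hF.mirror hB hT hp2 hpt hfull⟩
  obtain ⟨h1, T2, T3, h21, h31, h32, h2, h3⟩ := hF
  obtain ⟨c, hc, hcF⟩ := h1.exists_apex
  obtain ⟨ζ, hζ, hζc, hsym⟩ := h1.wall.reflection hB hT h1.2.1 h2.2.1 h3.2.1 h1.2.2.1 h2.2.2.1
    h3.2.2.1 h1.ne h2.ne h3.ne h21.symm h32.symm h31 hc hcF
  refine ⟨ζ, hζ.2, ⟨c, hc, hcF, by rw [hζc]; exact one_ne_zero⟩, fun κ a ha => ?_⟩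
  set f : V →₀ ℝ := Finsupp.indicator F (fun v _ => a v) with hf
  have hfa : ∀ v ∈ F, f v = a v := fun v hv => Finsupp.indicator_of_mem hv _
  have hzF : ZS F f := by
    refine ⟨Finsupp.support_indicator_subset _ _, ?_⟩
    rw [Finset.sum_congr rfl hfa, ha]
  have e1 : C.comb T T ζ = C.vec T ζ := by rw [C.vec_apply, LpComplex.comb]
  have e2 : C.comb T F a = C.vec T f := by
    rw [C.vec_apply, LpComplex.comb, ← Finset.sum_subset h1.2.2.1 fun v _ hv => by
      rw [hzF.notMem hv, zero_smul]]
    exact (Finset.sum_congr rfl fun v hv => by rw [hfa v hv]).symm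
  have h4 := hsym κ f hzF
  rw [← C.norm_vec, ← C.norm_vec, map_add, map_add, map_neg, map_smul] at h4
  rw [e1, e2]
  exact h4

/-- What `result` says about triangles: for `p ≠ 2` a triangle in `(R^2, l^p)` whose three edges
are thick walls is a right isosceles triangle. -/
theorem triangles (hp1 : 1 < p) (hpt : p ≠ ⊤) (hp2 : p ≠ 2) [DecidableEq V]
    (C : LpComplex p V X) (hC : C.LocallyFiniteShapes)
    (hσ : ∃ σ : X → X → ℝ → X, IsConicalBicombing σ) (T : Finset V) (hT : T ∈ C.K.faces)
    (hcard : T.card = 3) (hfull : C.IsFull T)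
    (hthick : ∀ F : Finset V, F ⊆ T → F.card = 2 → C.IsThickWallOf F T) :
    C.IsRightIsosceles T := by
  obtain ⟨σ, hσ⟩ := hσ
  have hTa := hC.tame
  have hB := busemannConvex_of_bicombing C hp1 hpt hTa hσ
  exact LpComplex.rightIsosceles hB hTa hp2 hpt hT hcard hfull hthick

end Pool.Agent.Results.MP_e44843_al.ThickMirrors
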